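import Pool.Agent.Helper3.GU.OneVar

/-!
# The Tate conjecture for one variety over `ℚ̄` and finitely many graph hypersurfaces

Let `k = ℚ̄`, and let `X` be **one** smooth projective variety over `k`. It is a union of connected components
of `S_k` for a smooth projective scheme `S` over `ℚ` (take a model of `X` over a number field). Let `ℓ` be a
prime number. Q1 for `X` and `ℓ` is the statement that for all `i` the Tate classes in `H^{2i}(X, ℚ_ℓ)(i)`
(the classes fixed by an open subgroup of the Galois group of a number field over which `X` is defined) are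
algebraic (`TateConj`). The question Q1 for all fields `k` follows from the case of `ℚ̄`: by a theorem of
Moonen the Tate conjecture over number fields implies semisimplicity, and then the general case follows by
specialization and the theorem of the fixed part.

For a smooth projective scheme `Y` over `ℚ` let `A^m(Y)` be the `ℚ_ℓ`-space generated by the classes of the
cycles of codimension `m` on `Y_k`, and let `B^m(Y)` be the sum of `A^m(Y)` and of the images `c_*(τ)` of
the Tate classes `τ` of `X` (of all degrees) under the cycles `c` on `X × Y_k`,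
`c_*(τ) = pr_{Y*}(c · pr_X^* τ)`. Both are additive functors of the Chow motive of `Y`, and `A^m ⊆ B^m`;
they are equal for all `m` if and only if the classes `c_*(τ)` are algebraic (`Stable`). For a separated
scheme `Z` of finite type over `ℚ` let `W(Z)` be its weight complex (Gillet, Soulé; `W(Z) = h(Z)` for
smooth projective `Z`), and put `A^{m,i}(Z) = H^i(A^m(W(Z)))`, `B^{m,i}(Z) = H^i(B^m(W(Z)))`. `BijAll C Z`
says that the maps `A^{m,i}(Z) → B^{m,i}(Z)` are isomorphisms for all `m` and `i`.

For a simple graph `G` with the vertices `0, …, n` let `K_G` be the Kirchhoff polynomial (the sum over the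
spanning trees of the products of the variables of their edges) and `Ψ_G` the first Symanzik polynomial
(of the Feynman integrals).

**Theorem.** There is a finite list `L` of graphs with at most three edges at each vertex (graphs obtained
by leaving out and subdividing edges of Feynman graphs of the `φ³`-theory) which depends only on `S` (not on
`ℓ`, `i`, or on the component `X`) such that the following statements are equivalent.

* For all `i` the Tate classes in `H^{2i}(X, ℚ_ℓ)(i)` are algebraic.
* The maps are isomorphisms for all separated schemes `Z` of finite type over `ℚ`.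
* They are isomorphisms for the complements of the finitely many graph hypersurfaces `K_G = 0`, `G` in `L`,
  in the affine spaces.
* They are isomorphisms for the finitely many graph hypersurfaces `K_G = 0`, `G` in `L`.
* They are isomorphisms for their complements in the tori, `G` in `L`.
* They are isomorphisms for the complements in the tori of the finitely many hypersurfaces `Ψ_G = 0`, `G` in
  `L`.
-/

set_option autoImplicit false

open AlgebraicGeometry Pool.Agent.Y116.UV Pool.Agent.Z125.UN Pool.Agent.Q193.LT
  Pool.Agent.Helper3.GU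

universe w u

namespace Pool.Agent.Results.MP_640417_ag.FinitelyManyGraphs

/-- A smooth projective variety `X` over `k = ℚ̄`, a union of connected components of `S_k`, its Tate
classes, and the cohomology of the schemes `Y_k`, for smooth projective schemes `Y` over `ℚ`. -/
structure TateData (ℓ : ℕ) [Fact ℓ.Prime] (S : Sch ℚ) where
  /-- `H^{2i}(X, ℚ_ℓ)(i)` -/
  HX : ℤ → ModuleCat.{w} ℚ_[ℓ]
  /-- the span of the classes of the cycles of codimension `i` on `X` -/
  algX : ∀ i : ℤ, Submodule ℚ_[ℓ] (HX i)
  /-- the Tate classes -/
  tate : ∀ i : ℤ, Submodule ℚ_[ℓ] (HX i)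
  /-- `H^{2m}(Y_k, ℚ_ℓ)(m)` -/
  H : ℤ → Sch ℚ → ModuleCat.{w} ℚ_[ℓ]
  /-- the span of the classes of the cycles of codimension `m` on `Y_k` -/
  alg : ∀ (m : ℤ) (Y : Sch ℚ), Submodule ℚ_[ℓ] (H m Y)
  /-- the cycles on `X × Y_k` which map the index `i` to the index `m` -/
  Cyc : ℤ → ℤ → Sch ℚ → Type u
  /-- the operation `τ ↦ c_*(τ)` of the cycle `c` -/
  act : ∀ {i m : ℤ} {Y : Sch ℚ}, Cyc i m Y → HX i →ₗ[ℚ_[ℓ]] H m Y
  /-- the graph of the inclusion of `X` in `S_k` -/
  incl : ∀ i : ℤ, Cyc i i S

variable {ℓ : ℕ} [Fact ℓ.Prime] {S : Sch ℚ}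

/-- The standard properties: correspondences preserve algebraic classes, and a class on `X` is algebraic if
its image on `S_k` is (it is the restriction of its image to the component `X`). -/
structure IsTateData (D : TateData.{w, u} ℓ S) : Prop where
  act_mem : ∀ (i m : ℤ) (Y : Sch ℚ), SmoothProj Y → ∀ (c : D.Cyc i m Y) (x : D.HX i),
    x ∈ D.algX i → D.act c x ∈ D.alg m Y
  incl_mem : ∀ (i : ℤ) (x : D.HX i), D.act (D.incl i) x ∈ D.alg i S → x ∈ D.algX i

/-- All Tate classes on `X` are algebraic, in all degrees. -/
def TateConj (D : TateData.{w, u} ℓ S) : Prop := ∀ i, D.tate i ≤ D.algX i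

/-- The images in `Y_k` of the Tate classes on `X` are algebraic. -/
def Stable (D : TateData.{w, u} ℓ S) (Y : Sch ℚ) : Prop :=
  ∀ i m, ∀ c : D.Cyc i m Y, ∀ x ∈ D.tate i, D.act c x ∈ D.alg m Y

/-- **The Tate conjecture for one variety over `ℚ̄` and finitely many graph hypersurfaces.** See the
explanations above. -/
theorem result {S : Sch ℚ} (hS : SmoothProj S) :
    ∃ L : List (Σ n : ℕ, SimpleGraph (Fin (n + 1))), (∀ G ∈ L, Subcubic G.2) ∧
      ∀ (ℓ : ℕ) [Fact ℓ.Prime] (D : TateData.{w, u} ℓ S) (C : PairData.{w} ℚ (ℤ × ℤ) ℚ_[ℓ]),
        IsTateData D → IsWeightPair C → WeightGen C → BijAll C (aff ℚ ℚ) →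
        (∀ Y, SmoothProj Y → (BijAll C Y ↔ Stable D Y)) →
        List.TFAE [TateConj D,
          ∀ X : Sch ℚ, FT True X → BijAll C X,
          ∀ G ∈ L, BijAll C (graphS ℚ G.2),
          ∀ G ∈ L, BijAll C (graphH ℚ G.2),
          ∀ G ∈ L, BijAll C (graphT ℚ G.2),
          ∀ G ∈ L, BijAll C (feynmanT ℚ G.2)] := by
  obtain ⟨L, hL, h⟩ := list_pair frac_rat S hS
  refine ⟨L, hL, fun ℓ _ D C hD hC hg h1 bij => h C hg hC h1 (TateConj D) (fun h i x hx => ?_)
    fun h Y hY => (bij Y hY).mpr fun i m c x hx => hD.act_mem i m Y hY c x (h i hx)⟩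
  exact hD.incl_mem i x ((bij S hS).mp h i i (D.incl i) x hx)

end Pool.Agent.Results.MP_640417_ag.FinitelyManyGraphs
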