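import Pool.Agent.Helper2.MU.Final
import Pool.Agent.Helper2.MU.Defs

/-!
# Tate classes and places of maximally unipotent monodromy, in even and odd weights

Let `K` be a finitely generated field of characteristic zero with Galois group `Γ` and cyclotomic
character `χ`. Let `X i`, `i ∈ I`, be finitely many smooth projective varieties over `K`, and let `V i`
be the dual of a part (cut out by correspondences) of the cohomology group of `X i` in a degree `w i`,
EVEN OR ODD, with coefficients in the algebraic closure `k` of `ℚ_ℓ`, with the nondegenerate pairing
`ω i` given by the Poincaré pairing, which is symmetric (`sgn = 1`, `w i` even) or alternating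
(`sgn = -1`), with multiplier `χ ^ w i` (`FormPiece`). Let `U` be another smooth projective variety over
`K`, and `M` any Tate twist of a cohomology group of `U`. An identification `j` of `k` with the field of
complex numbers is fixed, in order to speak of absolute values.

Suppose:

* (a good place) `F` is a Frobenius element of a place where all `X i` and `U` have good reduction: it
  is pure of weight `w i` on `V i` and of weight `m` on `M` (Deligne), and `|χ F| ≠ 1`;
* (a place of maximally unipotent monodromy for each `i`) for each `i` there is a place `v i` where `U`
  and the other `X i'` have good reduction and where the monodromy operator of `V i` has only ONE JORDAN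
  BLOCK (`MaximallyUnipotentPlace`: `γ` is a generator of the tame inertia group, `φ` a Frobenius
  element); nothing is assumed on the eigenvalues of `φ` on `V i`;
* (`V i` is not a symmetric power of a representation of dimension two) the eigenvalues of SOME element
  of `Γ` on `V i` are not a geometric progression; this is not needed if `dim (V i) ≤ 2`, or if
  `dim (V i) = 3` and the form is symmetric. Moreover `dim (V i) ≠ 7` if the form is symmetric (in
  dimension seven there is the exceptional group `G₂`).

Then the Tate classes (fixed by a subgroup of finite index of `Γ`) in ALL tensor products of the `V i`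
with `M`, in any degrees, are exactly the linear combinations of products of

* pairings `ω i` (two variables),
* discriminant forms of the `V i` with a symmetric form (`dim (V i)` variables), the Tate classes in
  `det (V i)`, and
* Tate classes in `M`.

So the Tate conjecture for all these classes on all products of the `X i` and `U` is reduced to the
classes of the pairings, of the discriminants, and to `U`. For example, let `X` be a member of the Dwork
pencil `x_0 ^ (n + 2) + ⋯ + x_(n + 1) ^ (n + 2) = (n + 2) t x_0 ⋯ x_(n + 1)` of Calabi-Yau hypersurfaces
of EVEN dimension `n ≠ 6` over `K`, and let `V` be the part of the cohomology of degree `n` of rank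
`n + 1` which is fixed by the group of diagonal symmetries. If `t` has negative valuation at some place
of `K` whose residue characteristic is prime to `ℓ` and to `n + 2`, then this is a place of maximally
unipotent monodromy.

The theorem does not assume that the representations are semisimple or irreducible, nor that the
eigenvalues of some Frobenius element are simple or satisfy no multiplicative relations.

The results of the starting library on maximally unipotent monodromy (`MP_b8862a_ag`, `MP_3703a7_ag`,
`MP_bbcdf5_ag`, `MP_c184fc_ag`, `MP_8f1292_ag`) are about alternating forms only (odd degrees); its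
results on symmetric forms (`MP_0d42ed_ag.DiscriminantClasses`) need an element whose eigenvalues satisfy
only the trivial relations. The new point of the proof is a direct determination of the Lie algebras of
skew operators, for a symmetric form on a space of odd dimension `D + 1 ≠ 7`, which contain the principal
`sl₂` and are not equal to it: such a Lie algebra contains the power `e ^ (D - 1)` of the nilpotent
element `e` (here one needs that `D (D + 1) ≠ 2 k (k + 1)` for odd `k`), hence the diagonal matrix with
entries `-1, -1, 0, …, 0, 1, 1`, and the brackets of functions on the set of the weights give the Cartan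
subalgebra and all root vectors.
-/

set_option autoImplicit false

namespace Pool.Agent.Results.MP_640417_ag.MaximallyUnipotentAllWeights

open Module Pool.Agent.V1141.WT Pool.Agent.V1141.OF Pool.Agent.V1141.SO Pool.Agent.Helper2.MU

/-- **Tate classes and places of maximally unipotent monodromy, in even and odd weights.** -/
theorem result {k : Type} [Field k] [CharZero k] [IsAlgClosed k] {Γ : Type} [Group Γ]
    {χ : Γ →* k} {I : Type} [Fintype I]
    -- the duals of parts of the cohomology groups of `X i` in degree `w i`
    (P : I → FormPiece k χ)
    -- the cohomology of `U`, in a degree, and twisted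
    {M : Type} [AddCommGroup M] [Module k M] [FiniteDimensional k M] (τ : Representation k Γ M)
    (m : ℤ)
    -- a place of good reduction
    (j : k →+* ℂ) (F : Γ) (hF : ‖j (χ F)‖ ≠ 1) (hV : ∀ i, IsPure j χ F (P i).ρ (P i).w)
    (hM : IsPure j χ F τ m)
    -- the places of maximally unipotent monodromy
    (hmum : ∀ i, MaximallyUnipotentPlace P τ j m i) (hgen : ∀ i, General (P i))
    {N : ℕ} (f : MultilinearMap k (fun _ : Fin N => Sum P) M) :
    IsTateClass (act P) τ f ↔ f ∈ Submodule.span k {h | IsProductTimes P τ h} := by
  classical
  refine ⟨fun hf => ?_, fun hf => tate_of_span P τ hf⟩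
  have key : ∀ i, ∃ (d : ℕ) (b : Basis (Fin d) k (P i).V) (inv : Fin d → Fin d) (J : Fin d → k),
      (∀ a, J a ≠ 0) ∧ (∀ a, inv (inv a) = a) ∧
      (∀ x y, (P i).ω (b x) (b y) = if y = inv x then J x else 0) ∧
      ∀ a c, TT ((P i).ω) ((P i).sgn : k) (b a) (b c) ∈
        lieO (V := fun i => (P i).V) (fun i => (P i).ρ) τ (fun i => (P i).ω) i := by
    intro i
    obtain ⟨γ, φ, q, ⟨h1, h2⟩, hq, hrel, ⟨h3, h4, h5⟩, h6, h7⟩ := hmum i
    refine block (V := fun i => (P i).V) (fun i => (P i).ρ) τ χ (fun i => (P i).w)
      (fun i => (P i).ω) j m ?_ (P i).sym (P i).nondeg (P i).twisted hF (fun i' a ha => ?_) hM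
      h1 h2 h5 h4 h3 hq hrel (fun i' hi' a ha => ?_) h6 ?_ ?_
    · exact (P i).sgn_eq.imp (fun h => h.1) id
    · have h8 := hV i' a ha
      rw [zpow_natCast] at h8
      exact h8
    · have h8 := h7 i' hi' a ha
      rw [zpow_natCast] at h8
      exact h8
    · rcases hgen i with ⟨h8, h9 | ⟨-, h9⟩⟩ | ⟨h8, h9 | h9⟩
      · exact Or.inl ⟨h8, h9⟩
      · exact Or.inr (Or.inr h9)
      · exact Or.inr (Or.inl h9)
      · exact Or.inr (Or.inr h9)
    · intro h8 h10
      change finrank k (P i).V = 7 at h10
      rcases hgen i with ⟨-, h9 | ⟨h9, -⟩⟩ | ⟨h9, -⟩
      · omega
      · exact h9 h10
      · rw [h8] at h9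
        norm_num at h9
  choose d b inv J hJ hinv hωb hTT using key
  exact main_of_tt P τ b inv J hJ hinv hωb hTT f hf

end Pool.Agent.Results.MP_640417_ag.MaximallyUnipotentAllWeights
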