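import Pool.Agent.Helper86.LT.Final
import Pool.Agent.Helper86.LT.Stmt
import Pool.Agent.Helper2.GLM.Block

/-!
# Tate classes and places of maximally unipotent monodromy: pieces which are not self-dual

Let `K` be a finitely generated field of characteristic zero with Galois group `Γ` and cyclotomic
character `χ`. Let `X i`, `i ∈ I`, be finitely many smooth projective varieties over `K`, and let `V i`
be a part, or the dual of a part (cut out by correspondences), of the cohomology group of `X i` in a
degree, with coefficients in the algebraic closure `k` of `ℚ_ℓ`; it is pure of weight `w i`. Let `U`
be another smooth projective variety over `K`, and `M` any Tate twist of a cohomology group of `U`.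
An identification `j` of `k` with the field of complex numbers is fixed, in order to speak of absolute
values.

The typical example: the cohomology of `X i` is a module over an imaginary quadratic field `E`, and
`V i` is the part on which `E` acts by one of its two embeddings into `k`. The other part is a Tate
twist of the DUAL of `V i`, by Poincaré duality. For example, let `X i` be the covering of degree three
`y ^ 3 = (x_1 ⋯ x_n) ^ a ((1 - x_1) ⋯ (1 - x_n)) ^ b (1 - t x_1 ⋯ x_n) ^ c` of the affine space,
compactified: the parts of its cohomology of degree `n` on which a cubic root of unity acts by a
primitive character are hypergeometric representations of dimension `n + 1`, and the places of `K`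
where `t` has positive valuation, and whose residue characteristic is prime to `3 ℓ`, can be places of
maximally unipotent monodromy.

Suppose:

* (a good place) `F` is a Frobenius element of a place where all `X i` and `U` have good reduction: it
  is pure of weight `w i` on `V i` and of weight `m` on `M` (Deligne), and `|χ F| ≠ 1`;
* (a place of maximally unipotent monodromy for each `i`) for each `i` there is a place where `U` and
  the other `X i'` have good reduction and where the monodromy operator of `V i` has only ONE JORDAN
  BLOCK (`MaximallyUnipotentPlace`: `γ` is a generator of the tame inertia group, `φ` a Frobenius
  element); nothing is assumed on the eigenvalues of `φ` on `V i`, except that its determinant has the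
  expected absolute value;
* `V i` is not isomorphic to its dual up to a twist (`NotSelfDual`); this is not needed if
  `dim (V i) ≤ 2`.

Then the Tate classes (fixed by a subgroup of finite index of `Γ`) in ALL tensor products of the `V i`,
THEIR DUALS, and `M`, in any degrees, are exactly the linear combinations of Tate classes which are
products of

* evaluations `V i × (V i)ᵛ → k` (they are algebraic: the correspondences and the Poincaré pairing),
* determinant forms of the `V i`, in `dim (V i)` variables (in the example above these are the classes
  of the type considered by Weil, in the determinant of the cohomology over `E`),
* determinant forms of the duals of the `V i`, and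
* a vector of `M`.

So the Tate conjecture for all these classes on all products of the `X i` and `U` is reduced to the
determinants (multiplied by classes on `U`).

The theorem does not assume that the representations are semisimple or irreducible, nor that the
eigenvalues of some Frobenius element are simple or satisfy no multiplicative relations.

The results of the starting library on maximally unipotent monodromy are about representations with an
alternating form only, the hand-in `MP_640417_ag.MaximallyUnipotentAllWeights` is about representations
with a symmetric or alternating form; here there is NO form, and the Lie algebra of the image is shown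
to contain the whole special linear Lie algebra. The new point of the proof is elementary: a Lie
algebra `L` of operators on a space of dimension `D + 1` which contains the principal triple `e, h, f`
and does not consist of infinitesimal similitudes of the invariant form contains an even power
`e ^ a`, `2 ≤ a ≤ D`; the diagonal element `t = ad(f) ^ a (e ^ a)` then has `t 0 ≠ t 1` and
`t (D - i) = t i`, and comparing the brackets of `t` with the elements of the largest and of the second
largest weight of `L` shows that `e ^ D` and `e ^ (D - 1)` belong to `L`, which generate everything.
-/

set_option autoImplicit false

namespace Pool.Agent.Results.MP_640417_ag.MaximallyUnipotentLinearType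

open Module Pool.Agent.Helper86.LTS
open Pool.Agent.Helper86.LT (Piece)

/-- **Tate classes and places of maximally unipotent monodromy, for representations which are not
self-dual.** -/
theorem result {k : Type} [Field k] [CharZero k] [IsAlgClosed k] {Γ : Type} [Group Γ]
    (χ : Γ →* k) {I : Type} [Fintype I]
    -- the parts of the cohomology groups of `X i`
    (P : I → Piece k Γ)
    -- the cohomology of `U`, in a degree, and twisted
    {M : Type} [AddCommGroup M] [Module k M] [FiniteDimensional k M] (τ : Representation k Γ M)
    (m : ℤ)
    -- a place of good reduction
    (j : k →+* ℂ) (F : Γ) (hF : ‖j (χ F)‖ ≠ 1) (hV : ∀ i, IsPure j χ F (P i).ρ (P i).w)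
    (hM : IsPure j χ F τ m)
    -- the places of maximally unipotent monodromy
    (hmum : ∀ i, MaximallyUnipotentPlace P τ χ j m i)
    -- the pieces are not self-dual
    (hgen : ∀ i, finrank k (P i).V ≤ 2 ∨ NotSelfDual (P i))
    {N : ℕ} (f : MultilinearMap k (fun _ : Fin N => Sum P) M) :
    IsTateClass P τ f ↔ f ∈ Submodule.span k {h | IsProductTimes P τ h} := by
  classical
  refine ⟨fun hf => ?_, fun hf => Pool.Agent.Helper86.LT.tate_of_span P τ hf⟩
  have key : ∀ i, ∃ (d : ℕ) (b : Basis (Fin d) k (P i).V), ∀ x y, x ≠ y →
      (∃ X ∈ Pool.Agent.Helper86.LT.lieA (V := fun i => (P i).V) (fun i => (P i).ρ) τ i, ∀ z,
        X (b z) = if z = x then b y else 0) ∧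
      ∃ X ∈ Pool.Agent.Helper86.LT.lieA (V := fun i => (P i).V) (fun i => (P i).ρ) τ i, ∀ z,
        X (b z) = (if z = x then b z else 0) - (if z = y then b z else 0) := by
    intro i
    obtain ⟨γ, φ, q, hq, ⟨h1, h2⟩, hrel, hdet, ⟨h3, h4⟩, h5, h6⟩ := hmum i
    refine Pool.Agent.Helper2.GLM.blockA (V := fun i => (P i).V) (fun i => (P i).ρ) τ χ
      (fun i => (P i).w) j m hF hV hM h1 h2 h4 h3 hq hrel h6 h5 hdet ?_
    rcases hgen i with h7 | h7
    · exact Or.inl h7
    · right
      intro ω hω
      refine LinearMap.ext fun u => LinearMap.ext fun v => ?_
      exact h7 ω hω u v
  choose d b hb using key
  exact Pool.Agent.Helper86.LT.main_of_lie P b τ j (fun i x y hxy => (hb i x y hxy).1)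
    (fun i x y hxy => (hb i x y hxy).2) f hf

end Pool.Agent.Results.MP_640417_ag.MaximallyUnipotentLinearType
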