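import Pool.Agent.Helper2.MU.Final
import Pool.Agent.Helper2.OP.GalForms
import Pool.Agent.Helper2.OP.Defs

/-!
# Tate classes on products of varieties which degenerate at the same place

Let `K` be a finitely generated field of characteristic zero with Galois group `Γ` and cyclotomic
character `χ`. Let `X i`, `i ∈ I`, be finitely many smooth projective varieties over `K`, and let `V i`
be the dual of a part (cut out by correspondences) of the cohomology group of `X i` in a degree `w i`,
even or odd, with coefficients in the algebraic closure `k` of `ℚ_ℓ`, with the nondegenerate pairing
`ω i` given by the Poincaré pairing, which is symmetric (`sgn = 1`, `w i` even) or alternating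
(`sgn = -1`), with multiplier `χ ^ w i` (`FormPiece`). Let `U` be another smooth projective variety over
`K`, and `M` any Tate twist of a cohomology group of `U`. An identification `j` of `k` with the field of
complex numbers is fixed, in order to speak of absolute values.

Suppose:

* (a good place) `F` is a Frobenius element of a place where all `X i` and `U` have good reduction: it
  is pure of weight `w i` on `V i` and of weight `m` on `M` (Deligne), and `|χ F| ≠ 1`;
* (a place of maximally unipotent monodromy, the same for all `i`) there is ONE place where `U` has good
  reduction and where the monodromy operators of ALL `V i` have only one Jordan block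
  (`CommonMaximallyUnipotentPlace`: `γ` is a generator of the tame inertia group, `φ` a Frobenius
  element); nothing is assumed on the eigenvalues of `φ` on the `V i`;
* (`V i` is not a symmetric power of a representation of dimension two) the eigenvalues of SOME element
  of `Γ` on `V i` are not a geometric progression; this is not needed if `dim (V i) ≤ 2`, or if
  `dim (V i) = 3` and the form is symmetric; `dim (V i) ≠ 7` if the form is symmetric (`General`);
* for `i ≠ i'` the representations `V i` and `V i'` are not isomorphic up to a twist (this holds, of
  course, if the dimensions are different), and no two of the dimensions are `2` and `3`, or `4`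
  and `5`.

Then the Tate classes (fixed by a subgroup of finite index of `Γ`) in ALL tensor products of the `V i`
with `M`, in any degrees, are exactly the linear combinations of products of

* pairings `ω i` (two variables),
* discriminant forms of the `V i` with a symmetric form (`dim (V i)` variables), the Tate classes in
  `det (V i)`, and
* Tate classes in `M`.

So there are no Tate classes which mix different `V i`, although only one place of bad reduction is
used, where all `V i` degenerate in the same way, and the Tate conjecture for all these classes on all
products of the `X i` and `U` is reduced to the classes of the pairings, of the discriminants, and to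
`U`. For example, for a finite set of dimensions `n ≠ 6` without `{1, 2}` and `{3, 4}`, let `X n` be
the member with the SAME parameter `t` of the Dwork pencil of Calabi-Yau hypersurfaces
`x_0 ^ (n + 2) + ⋯ + x_(n + 1) ^ (n + 2) = (n + 2) t x_0 ⋯ x_(n + 1)`, and `V n` the part of its
cohomology of degree `n` of rank `n + 1` which is fixed by the group of diagonal symmetries; if `t` has
negative valuation at some place of `K` whose residue characteristic is large, then this is a place of
maximally unipotent monodromy for all `V n`. The same holds for hypergeometric motives with the same
parameter and with the maximally unipotent point at the same place.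

The theorem does not assume that the representations are semisimple or irreducible, nor that the
eigenvalues of some Frobenius element are simple or satisfy no multiplicative relations.

In the earlier result `MaximallyUnipotentAllWeights` each `V i` has its OWN place, where the other `V i'`
have good reduction, so that the problem is reduced at once to one `V i`. Here the Lie algebra `L` of all
tuples of operators `(X i)` which kill the Tate classes contains only the tuple `(e i)` of the
logarithms, and one has to separate the `V i`. The new point is the algebra `A` of functions on the
DISJOINT UNION of the chains of weights of all `V i`, given by the multipliers of the raising and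
lowering elements of `L`: it is stable under the second difference operator
`r ↦ κ (l - 1) r (l - 1) + κ (l + 1) r (l + 1) - 2 κ l r l`, `κ l = (l + 1) (D i - l)`, and one shows
that two chains whose points are not separated by `A` have the same length and are matched identically
(except for the lengths `2, 3` and `4, 5`), and that then `V i` and `V i'` are isomorphic up to a twist;
if `A` separates all chains then the idempotents of `A` give elements of `L` supported on one `V i`.
-/

set_option autoImplicit false

namespace Pool.Agent.Results.MP_640417_ag.MaximallyUnipotentOnePlace

open Module Pool.Agent.V1141.WT Pool.Agent.V1141.OF Pool.Agent.V1141.SO Pool.Agent.Helper2.MU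
  Pool.Agent.Helper2.OP

/-- **Tate classes and one place of maximally unipotent monodromy for several representations.** -/
theorem result {k : Type} [Field k] [CharZero k] [IsAlgClosed k] {Γ : Type} [Group Γ]
    {χ : Γ →* k} {I : Type} [Fintype I]
    -- the duals of parts of the cohomology groups of `X i` in degree `w i`
    (P : I → FormPiece k χ)
    -- the cohomology of `U`, in a degree, and twisted
    {M : Type} [AddCommGroup M] [Module k M] [FiniteDimensional k M] (τ : Representation k Γ M)
    (m : ℤ)
    -- a place of good reduction
    (j : k →+* ℂ) (F : Γ) (hF : ‖j (χ F)‖ ≠ 1) (hV : ∀ i, IsPure j χ F (P i).ρ (P i).w)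
    (hM : IsPure j χ F τ m)
    -- the place of maximally unipotent monodromy
    (hmum : CommonMaximallyUnipotentPlace P τ j m) (hgen : ∀ i, General (P i))
    (hiso : ∀ i i', i ≠ i' → NotIsomorphicUpToTwist (P i) (P i'))
    (hdim : ∀ i i', NoExceptionalPair (P i) (P i'))
    {N : ℕ} (f : MultilinearMap k (fun _ : Fin N => Sum P) M) :
    IsTateClass (act P) τ f ↔ f ∈ Submodule.span k {h | IsProductTimes P τ h} := by
  classical
  refine ⟨fun hf => ?_, fun hf => tate_of_span P τ hf⟩
  have key : ∀ i, ∃ (d : ℕ) (b : Basis (Fin d) k (P i).V) (inv : Fin d → Fin d) (J : Fin d → k),
      (∀ a, J a ≠ 0) ∧ (∀ a, inv (inv a) = a) ∧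
      (∀ x y, (P i).ω (b x) (b y) = if y = inv x then J x else 0) ∧
      ∀ a c, TT ((P i).ω) ((P i).sgn : k) (b a) (b c) ∈
        lieO (V := fun i => (P i).V) (fun i => (P i).ρ) τ (fun i => (P i).ω) i := by
    obtain ⟨γ, φ, q, hq, h1, ⟨h3, h4⟩, h6⟩ := hmum
    refine blockT (V := fun i => (P i).V) (fun i => (P i).ρ) τ χ (fun i => (P i).w)
      (fun i => (P i).ω) j m (fun i => ?_) (fun i => (P i).sym) (fun i => (P i).nondeg)
      (fun i => (P i).twisted) hF (fun i a ha => ?_) hM
      (fun i => (h1 i).1.1) (fun i => (h1 i).1.2) h4 h3 hq (fun i => (h1 i).2) h6 (fun i => ?_)
      (fun i => ?_) hdim (fun i i' hii W hW => hiso i i' hii ⟨W, hW⟩)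
    · exact (P i).sgn_eq.imp (fun h => h.1) id
    · have h8 := hV i a ha
      rw [zpow_natCast] at h8
      exact h8
    · rcases hgen i with ⟨h8, h9 | ⟨-, h9⟩⟩ | ⟨h8, h9 | h9⟩
      · exact Or.inl ⟨h8, h9⟩
      · exact Or.inr (Or.inr h9)
      · exact Or.inr (Or.inl h9)
      · exact Or.inr (Or.inr h9)
    · intro h8 h10
      change finrank k (P i).V = 7 at h10
      rcases hgen i with ⟨-, h9 | ⟨h9, -⟩⟩ | ⟨h9, -⟩
      · omega
      · exact h9 h10
      · rw [h8] at h9
        norm_num at h9
  choose d b inv J hJ hinv hωb hTT using key
  exact main_of_tt P τ b inv J hJ hinv hωb hTT f hf

end Pool.Agent.Results.MP_640417_ag.MaximallyUnipotentOnePlace
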